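import Pool.Agent.MNU.StmtsU

/-!
# Squad MNU, row NBE: arithmetic
-/

set_option autoImplicit false

namespace Pool.Agent.MNU.H15

open Pool.Agent.MNU

theorem nbe : NbeStmt := by
  intro g hg
  have hg2 : (2 : ℝ) ≤ g := by exact_mod_cast hg
  have hg0 : (0 : ℝ) ≤ g := by linarith only [hg2]
  have hl0 : 0 < Real.log 2 := Real.log_pos (by norm_num)
  have hl1 : Real.log 2 < 0.6931471808 := Real.log_two_lt_d9
  have h128 : Real.log 128 = 7 * Real.log 2 := by
    rw [show (128 : ℝ) = 2 ^ 7 by norm_num, Real.log_pow]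
    norm_num
  have hE : EM g = 2 * (4 * (g : ℝ) + 10) ^ 4 -
      (184 * (g : ℝ) ^ 3 + 1410 * (g : ℝ) ^ 2 + 3955 * g + 3980) := by
    unfold EM
    ring
  have hE2 : EM g ≤ 2 * (4 * (g : ℝ) + 10) ^ 4 := by
    have h1 : 0 ≤ 184 * (g : ℝ) ^ 3 + 1410 * (g : ℝ) ^ 2 + 3955 * g + 3980 := by positivity
    linarith only [hE, h1]
  set n : ℝ := 4 * (g : ℝ) + 10 with hn
  have hn18 : 18 ≤ n := by linarith only [hn, hg2]
  have hn0 : 0 < n := by linarith only [hn18]
  have habs : |n * Real.log 2| = n * Real.log 2 := abs_of_nonneg (mul_nonneg hn0.le hl0.le)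
  have hlog : Real.log (4 * n) ≤ n / 8 + 2.5 := by
    have h1 : Real.log (4 * n) = Real.log (n / 8) + 5 * Real.log 2 := by
      rw [show 4 * n = (n / 8) * 2 ^ 5 by ring, Real.log_mul (by positivity) (by norm_num),
        Real.log_pow]
      norm_num
    have h2 : Real.log (n / 8) ≤ n / 8 - 1 := Real.log_le_sub_one_of_pos (by positivity)
    rw [h1]
    linarith only [h2, hl1]
  have hmul : n * Real.log (4 * n) ≤ n * (n / 8 + 2.5) := mul_le_mul_of_nonneg_left hlog hn0.le
  have hmul2 : n * Real.log 2 ≤ n * 0.7 :=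
    mul_le_mul_of_nonneg_left (by linarith only [hl1]) hn0.le
  have hlog0 : 0 ≤ Real.log (4 * n) := Real.log_nonneg (by linarith only [hn18])
  have hS : Real.log 2 + (Real.log 128 + |n * Real.log 2| + n * Real.log (4 * n)) ≤ n ^ 2 / 2 := by
    rw [habs, h128]
    nlinarith only [hmul, hmul2, hl1, hn18]
  have hS0 : 0 ≤ Real.log 2 + (Real.log 128 + |n * Real.log 2| + n * Real.log (4 * n)) := by
    rw [h128]
    positivity
  calc EM g * (Real.log 2 + (Real.log 128 + |n * Real.log 2| + n * Real.log (4 * n)))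
      ≤ (2 * n ^ 4) * (n ^ 2 / 2) := mul_le_mul hE2 hS hS0 (by positivity)
    _ = n ^ 6 := by ring

end Pool.Agent.MNU.H15
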